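import Pool.Agent.H67.MV.ErdosVersusTuran

/-!
# Two copies of the complete 3-graph on four points: the case of Turan's numbers
-/

open Finset

namespace Pool.Agent.Results.MP_b37025_co.ErdosVersusTuran

open Pool.H67.MV.ErdosVersusTuran

/-- For `k = 4` and `n` at least four, let `t3 n 4` be the Turan number and `turan n` the number
conjectured by Turan. If three does not divide `n` and `t3 n 4 = turan n`, then some 3-graph on
`n` points with `t3 n 4 + 1` edges has exactly one complete 3-graph on four points. If three
divides `n` and `t3 (n - 1) 4 = turan (n - 1)`, then every 3-graph on `n` points with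
`t3 n 4 + 1` edges has at least two. -/
theorem result : ∀ n : ℕ, 4 ≤ n →
    (¬ 3 ∣ n → t3 n 4 = turan n → ∃ H : Finset (Finset (Fin n)),
      IsThreeGraph H ∧ H.card = t3 n 4 + 1 ∧ (copies 4 H).card = 1) ∧
    (3 ∣ n → t3 (n - 1) 4 = turan (n - 1) → TwoCopies n 4) :=
  Pool.H67.MV.ErdosVersusTuran.result

end Pool.Agent.Results.MP_b37025_co.ErdosVersusTuran
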